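import Pool.Agent.Helper91.DV.C6
import Pool.Agent.Helper91.DV.B2
import Pool.Agent.DA.KDex

/-!
# MP_5766af_al

A division algebra `D`, infinite dimensional over its centre `F`, all of whose proper
`F`-subalgebras satisfy a polynomial identity.
-/

set_option autoImplicit false

namespace Pool.Agent.Results.MP_5766af_al.ProperSubalgebrasPI

open Pool.Agent.Helper91.DV Equiv

/-- The value of the standard polynomial of degree `n` at `a 0, ..., a (n - 1)`. -/
def std {D : Type} [Ring D] {n : ℕ} (a : Fin n → D) : D :=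
  ∑ σ : Perm (Fin n), ((Perm.sign σ : ℤ)) • (List.ofFn (fun i => a (σ i))).prod

/-- `A` satisfies a standard identity. -/
def StdIdentity {F D : Type} [Field F] [DivisionRing D] [Algebra F D] (A : Subalgebra F D) : Prop :=
  ∃ n : ℕ, 1 ≤ n ∧ ∀ a : Fin n → D, (∀ i, a i ∈ A) → std a = 0

/-- `A` satisfies a nonzero polynomial identity over `F`. -/
def IsPI {F D : Type} [Field F] [DivisionRing D] [Algebra F D] (A : Subalgebra F D) : Prop :=
  ∃ n : ℕ, ∃ f : FreeAlgebra F (Fin n), f ≠ 0 ∧
    ∀ a : Fin n → D, (∀ i, a i ∈ A) → FreeAlgebra.lift F a f = 0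

/-- `E` is a strictly increasing sequence of subalgebras with union `D`, each closed under inverses
and finitely generated as a module over its own centre. -/
structure Chain {F D : Type} [Field F] [DivisionRing D] [Algebra F D] (E : ℕ → Subalgebra F D) :
    Prop where
  mono : StrictMono E
  union : ∀ d : D, ∃ m, d ∈ E m
  inv : ∀ m, ∀ d ∈ E m, d⁻¹ ∈ E m
  fin : ∀ m, Module.Finite (Subring.center (E m)) (E m)

theorem aux {K : Type} [Field K] [CharZero K] {X : KD K} {D : Type} [DivisionRing D] (Y : DD X D) :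
    ∃ (F : Type) (D : Type) (_ : Field F) (_ : DivisionRing D) (_ : Algebra F D),
      CharZero F ∧
      (∀ d : D, (∀ x : D, d * x = x * d) ↔ ∃ c : F, algebraMap F D c = d) ∧
      (∀ d : D, IsAlgebraic F d → ∃ c : F, algebraMap F D c = d) ∧
      ¬ Module.Finite F D ∧
      ∃ E : ℕ → Subalgebra F D, Chain E ∧
        ∀ A : Subalgebra F D, A ≠ ⊤ → (∃ m, A ≤ E m) ∧ StdIdentity A ∧ IsPI A := by
  classical
  let _ := Y.algF
  have hmap : ∀ c : X.F, algebraMap X.F D c = Y.ι c := fun c => rfl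
  let E : ℕ → Subalgebra X.F D := fun m =>
    { (Y.Dm m) with
      algebraMap_mem' := fun c => Y.ι_mem_Dm m c }
  have hE : ∀ m d, d ∈ E m ↔ d ∈ Y.Dm m := fun m d => Iff.rfl
  have hstd : ∀ m, ∃ n : ℕ, 1 ≤ n ∧ ∀ a : Fin n → D, (∀ i, a i ∈ Y.Dm m) →
      ∑ σ : Perm (Fin n), ((Perm.sign σ : ℤ)) • (List.ofFn (fun i => a (σ i))).prod = 0 := by
    intro m
    refine ⟨Module.finrank (X.Z m) (Y.Dm m) + 1, by omega, ?_⟩
    intro a ha
    have h := C6.std_vanish (Z := X.Z m) (A := Y.Dm m) (fun i => ⟨a i, ha i⟩)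
    have h2 := congrArg (Y.Dm m).subtype h
    rw [map_sum, map_zero] at h2
    rw [← h2]
    refine Finset.sum_congr rfl fun σ _ => ?_
    rw [map_zsmul, map_list_prod, List.map_ofFn]
    rfl
  refine ⟨X.F, D, inferInstance, inferInstance, Y.algF, inferInstance, ?_, ?_, ?_, E,
    ⟨?_, ?_, ?_, ?_⟩, ?_⟩
  · intro d
    constructor
    · intro h
      obtain ⟨c, hc, rfl⟩ := Y.center_eq d h
      exact ⟨⟨c, hc⟩, rfl⟩
    · rintro ⟨c, rfl⟩ x
      exact Y.F_comm c c.2 x
  · intro d hd
    obtain ⟨p, hp, hp0⟩ := hd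
    obtain ⟨c, hc, hc2⟩ := Y.alg_F d (p.map X.F.subtype)
      (by rwa [Ne, Polynomial.map_eq_zero]) (fun i => by rw [Polynomial.coeff_map]; exact (p.coeff i).2) (by
        rw [Polynomial.eval₂_map]
        exact hp0)
    exact ⟨⟨c, hc⟩, hc2.symm⟩
  · intro hfd
    have hint : IsIntegral X.F (Y.ι (X.a 0)) := Algebra.IsIntegral.isIntegral _
    obtain ⟨p, hp, hp0⟩ := hint
    obtain ⟨c, hc, hc2⟩ := Y.alg_F (Y.ι (X.a 0)) (p.map X.F.subtype)
      ((hp.map _).ne_zero) (fun i => by rw [Polynomial.coeff_map]; exact (p.coeff i).2) (by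
        rw [Polynomial.eval₂_map]
        exact hp0)
    have hc3 : X.a 0 = c := Y.ι.injective hc2
    have hv := X.v_a 0
    by_cases h0 : c = 0
    · rw [hc3, h0, X.v.map_zero] at hv
      exact absurd hv (by simp)
    obtain ⟨n, hn⟩ := X.v_F c hc h0
    rw [hc3, hn] at hv
    have hv2 : ((2 * (n : ℚ) : ℚ) : WithTop ℚ) = ((1 : ℚ) : WithTop ℚ) := hv
    have hv3 : (2 * (n : ℚ) : ℚ) = 1 := WithTop.coe_injective hv2
    have hv4 : 2 * n = 1 := by exact_mod_cast hv3
    omega
  · refine strictMono_nat_of_lt_succ fun m => lt_of_le_of_ne ?_ ?_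
    · intro d hd
      exact Y.Dm_mono (Nat.le_succ m) hd
    · intro h
      have h1 : Y.u (m + 1) ∈ E (m + 1) := Y.u_mem_Dm (m + 1)
      rw [← h] at h1
      exact Y.u_notMem m h1
  · intro d
    obtain ⟨m, hm⟩ := Y.exists_DK d
    exact ⟨m, Y.DK_le_Dm m hm⟩
  · intro m d hd
    exact Y.inv_mem_Dm m d hd
  · intro m
    have hfin : Module.Finite (X.Z m) (Y.Dm m) := inferInstance
    obtain ⟨S, hS⟩ := hfin.fg_top
    refine ⟨⟨S, ?_⟩⟩
    rw [eq_top_iff]
    intro x _
    have hx : x ∈ Submodule.span (X.Z m) (S : Set (Y.Dm m)) := by rw [hS]; trivial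
    induction hx using Submodule.span_induction with
    | mem x hx => exact Submodule.subset_span hx
    | zero => exact Submodule.zero_mem _
    | add x y _ _ h1 h2 => exact Submodule.add_mem _ (h1 trivial) (h2 trivial)
    | smul z x _ h1 =>
      have hz : (⟨Y.ι z, Y.ι_mem_Dm m z⟩ : E m) ∈ Subring.center (E m) := by
        rw [Subring.mem_center_iff]
        intro g
        apply Subtype.ext
        exact (Y.Z_comm m z.2 g.2).symm
      exact Submodule.smul_mem _ (⟨_, hz⟩ : Subring.center (E m)) (h1 trivial)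
  · intro A hA
    have hm : ∃ m, ∀ r ∈ A, r ∈ Y.Dm m := by
      by_contra h
      push Not at h
      apply hA
      rw [eq_top_iff]
      intro d _
      obtain ⟨m0, B⟩ := Y.exists_Big A.toSubring (fun c hc => A.algebraMap_mem ⟨c, hc⟩) h
      exact B.eq_top d
    obtain ⟨m, hm⟩ := hm
    refine ⟨⟨m, hm⟩, ?_, ?_⟩
    · obtain ⟨n, hn, h⟩ := hstd m
      exact ⟨n, hn, fun a ha => h a fun i => hm _ (ha i)⟩
    · obtain ⟨n, f, hf, hfa⟩ := Y.pi m
      exact ⟨n, f, hf, fun a ha => hfa a fun i => hm _ (ha i)⟩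

/-- There are a field `F` of characteristic zero and a division ring `D` which is an `F`-algebra
with centre exactly `F`, such that `F` is algebraically closed in `D`, `D` is infinite dimensional
over `F`, and `D` is the union of a strictly increasing sequence `E 0, E 1, ...` of division
subalgebras, each finite dimensional over its own centre, such that every proper `F`-subalgebra
is contained in some `E m`; in particular it satisfies a standard identity, hence a nonzero
polynomial identity over `F`. -/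
theorem result :
    ∃ (F : Type) (D : Type) (_ : Field F) (_ : DivisionRing D) (_ : Algebra F D),
      CharZero F ∧
      (∀ d : D, (∀ x : D, d * x = x * d) ↔ ∃ c : F, algebraMap F D c = d) ∧
      (∀ d : D, IsAlgebraic F d → ∃ c : F, algebraMap F D c = d) ∧
      ¬ Module.Finite F D ∧
      ∃ E : ℕ → Subalgebra F D, Chain E ∧
        ∀ A : Subalgebra F D, A ≠ ⊤ → (∃ m, A ≤ E m) ∧ StdIdentity A ∧ IsPI A := by
  obtain ⟨K, i1, i2, ⟨X⟩⟩ := Pool.Agent.DA.exists_KD
  obtain ⟨D, i3, ⟨Y⟩⟩ := Pool.Agent.Helper91.DV.exists_DD X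
  exact aux Y

end Pool.Agent.Results.MP_5766af_al.ProperSubalgebrasPI
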