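import Pool.Agent.Helper71.Main

set_option autoImplicit false

namespace Pool.Agent.Results.MP_5766af_al.UncountableDivision

/-- Let `D` be a division algebra with centre `F`, infinite dimensional over `F`. If `D` is
uncountable (for instance if `F` is uncountable) then `D` has a proper `F`-subalgebra satisfying
no nonzero polynomial identity. -/
theorem result {F D : Type*} [Field F] [DivisionRing D] [Algebra F D]
    (hcenter : Subalgebra.center F D ≤ ⊥) (hinf : ¬ FiniteDimensional F D)
    (hunc : Uncountable D) :
    ∃ A : Subalgebra F D, A ≠ ⊤ ∧ ∀ (n : ℕ) (f : FreeAlgebra F (Fin n)), f ≠ 0 →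
      ∃ a : Fin n → A, FreeAlgebra.lift F a f ≠ 0 :=
  Pool.Agent.Helper71.uncountable_main hcenter hinf

end Pool.Agent.Results.MP_5766af_al.UncountableDivision
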